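import Mathlib
import Pool.Agent.W5h75.SP.Core

/-!
Signs of products of an odd number of terms of rough tuples, in short intervals: comparison of two
rough tuples `U`, `V` by means of the identity
`L_i (V + a_j W P t / L_j (U)) / L_i (V) = L_j (U + a_i W P t / L_i (V)) / L_j (U)`.
-/

set_option autoImplicit false

open Finset

namespace Pool.Agent.W5h75.SQ

open Pool.Agent.H661R3.OP
open Pool.Agent.W5h75.SP (SVK rough_mul rough_ne_zero)

theorem rough_prod {ι : Type} (Y : ℕ) (s : Finset ι) (f : ι → ℤ) (h : ∀ i ∈ s, Rough Y (f i)) :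
    Rough Y (∏ i ∈ s, f i) := by
  intro p hp hpY hd
  obtain ⟨i, hi, hd⟩ := (Prime.dvd_finsetProd_iff (Nat.prime_iff_prime_int.1 hp) _).1 hd
  exact h i hi p hp hpY hd

/-- the sum of `F` over the values at `n` of the forms with index in `S` -/
def RR {ι : Type} (a b : ι → ℤ) (S : Finset ι) (F : ℤ → ZMod 2) (n : ℤ) : ZMod 2 :=
  ∑ i ∈ S, F (a i * n + b i)

/-- the exceptional integers in the interval `(X, X + Z]` -/
def Exc {ι : Type} (a b : ι → ℤ) (S : Finset ι) (F : ℤ → ZMod 2) (c : ZMod 2) (W : ℕ) (n₀ : ℤ)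
    (Y : ℕ) (X Z : ℤ) : Set ℤ :=
  {n : ℤ | X < n ∧ n ≤ X + Z ∧ (W : ℤ) ∣ n - n₀ ∧ (∀ i, Rough Y (a i * n + b i)) ∧
    RR a b S F n ≠ c}

theorem exc_finite {ι : Type} (a b : ι → ℤ) (S : Finset ι) (F : ℤ → ZMod 2) (c : ZMod 2) (W : ℕ)
    (n₀ : ℤ) (Y : ℕ) (X Z : ℤ) : (Exc a b S F c W n₀ Y X Z).Finite :=
  (Set.finite_Ioc X (X + Z)).subset fun _ hn => ⟨hn.1, hn.2.1⟩

theorem aux_win (α L q M u l : ℤ) (hα : 0 < α) (hq : 0 ≤ q) (hLq : L * q = α * M) (hL1 : L ≤ α * u)
    (hL2 : α * l ≤ L) : M ≤ u * q ∧ l * q ≤ M := by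
  have h1 : L * q ≤ α * u * q := mul_le_mul_of_nonneg_right hL1 hq
  have h2 : α * l * q ≤ L * q := mul_le_mul_of_nonneg_right hL2 hq
  rw [hLq] at h1 h2
  constructor
  · exact le_of_mul_le_mul_left (by linarith) hα
  · exact le_of_mul_le_mul_left (by linarith) hα

theorem algebra {ι : Type} (a b : ι → ℤ) (S : Finset ι) (hS : Odd S.card) (F : ℤ → ZMod 2)
    (c : ZMod 2) (U V : ℤ) (nn nn' : ι → ℤ) (r : ι → ι → ZMod 2)
    (h1 : ∀ j ∈ S, ∀ i ∈ S, F (a i * nn j + b i) = F (a i * V + b i) + r i j)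
    (h2 : ∀ i ∈ S, ∀ j ∈ S, F (a j * nn' i + b j) = F (a j * U + b j) + r i j)
    (h3 : ∀ j ∈ S, RR a b S F (nn j) = c) (h4 : ∀ j ∈ S, RR a b S F (nn' j) = c) :
    RR a b S F U = RR a b S F V := by
  have hc : ((S.card : ℕ) : ZMod 2) = 1 := by
    rw [ZMod.natCast_eq_one_iff_odd]; exact hS
  have e1 : ∑ j ∈ S, RR a b S F (nn j) = ∑ j ∈ S, c := sum_congr rfl h3
  have e2 : ∑ j ∈ S, RR a b S F (nn' j) = ∑ j ∈ S, c := sum_congr rfl h4
  have e3 : ∑ j ∈ S, RR a b S F (nn j) = ∑ j ∈ S, (RR a b S F V + ∑ i ∈ S, r i j) := by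
    refine sum_congr rfl fun j hj => ?_
    unfold RR
    rw [← sum_add_distrib]
    exact sum_congr rfl fun i hi => h1 j hj i hi
  have e4 : ∑ j ∈ S, RR a b S F (nn' j) = ∑ i ∈ S, (RR a b S F U + ∑ j ∈ S, r i j) := by
    refine sum_congr rfl fun i hi => ?_
    unfold RR
    rw [← sum_add_distrib]
    exact sum_congr rfl fun j hj => h2 i hi j hj
  rw [sum_add_distrib, sum_const, nsmul_eq_mul, hc, one_mul] at e3 e4
  rw [sum_comm] at e3
  rw [e1] at e3
  rw [e2] at e4
  exact add_right_cancel (e4.symm.trans e3)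

theorem link {ι : Type} [Fintype ι] (a b : ι → ℤ) (S : Finset ι) (hS : Odd S.card) (W : ℕ) (n₀ : ℤ)
    (K C : ℕ) (hSV : SVK K C) (hK : Fintype.card ι * (S.card * 2) ≤ K) (hW : 0 < W)
    (hWp : ∀ p : ℕ, p.Prime → p ≤ 2 * K → p ∣ W)
    (hWa : ∀ i, ∀ p : ℕ, p.Prime → (p : ℤ) ∣ a i → p ∣ W)
    (ha : ∀ i, 0 < a i) (B : ℤ) (hB : ∀ i, |b i| ≤ B)
    (hn₀ : ∀ i, ∀ p : ℕ, p.Prime → p ∣ W → ¬ (p : ℤ) ∣ a i * n₀ + b i)
    (Y : ℕ) (hY : 2 ≤ Y) (F : ℤ → ZMod 2) (hF : Add2 F) (c : ZMod 2) (X Z : ℤ) (E : ℕ)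
    (hE : (Exc a b S F c W n₀ Y X Z).ncard ≤ E) (hX : 0 < X)
    (U V : ℤ) (hB0 : 0 ≤ B) (hUB : B < U) (hUV : U ≤ V) (hU : (W : ℤ) ∣ U - n₀)
    (hV : (W : ℤ) ∣ V - n₀)
    (hrU : ∀ i ∈ S, Rough Y (a i * U + b i)) (hrV : ∀ i ∈ S, Rough Y (a i * V + b i))
    (h1 : 4 * X * (V - U + 2 * B) ≤ Z * (U - B)) (h2 : 4 * V ≤ Z)
    (h3 : 2 * (W * ∏ j ∈ S, (a j * U + b j) * (a j * V + b j)) *
      (Y ^ C * (2 * S.card * E + 1) : ℕ) ≤ Z * (U - B)) :
    RR a b S F U = RR a b S F V := by
  classical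
  have hWz : (0 : ℤ) < W := by exact_mod_cast hW
  set LU : ι → ℤ := fun j => a j * U + b j with hLU
  set LV : ι → ℤ := fun j => a j * V + b j with hLV
  have hbj : ∀ j, -(a j * B) ≤ b j ∧ b j ≤ a j * B := by
    intro j
    obtain ⟨g1, g2⟩ := abs_le.1 (hB j)
    have : B ≤ a j * B := by nlinarith [ha j]
    exact ⟨by linarith, by linarith⟩
  have hLUpos : ∀ j, 0 < LU j := by
    intro j
    have := (hbj j).1
    have h := mul_pos (ha j) (sub_pos.2 hUB)
    simp only [hLU]
    nlinarith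
  have hLVpos : ∀ j, 0 < LV j := by
    intro j
    have := (hbj j).1
    have h := mul_pos (ha j) (sub_pos.2 (lt_of_lt_of_le hUB hUV))
    simp only [hLV]
    nlinarith
  set P : ℤ := ∏ j ∈ S, LU j * LV j with hP
  have hPpos : 0 < P := prod_pos fun j _ => mul_pos (hLUpos j) (hLVpos j)
  have hP' : P = (∏ j ∈ S, LU j) * ∏ j ∈ S, LV j := prod_mul_distrib
  set PU : ι → ℤ := fun j => (∏ k ∈ S.erase j, LU k) * ∏ k ∈ S, LV k with hPU
  set PV : ι → ℤ := fun j => (∏ k ∈ S, LU k) * ∏ k ∈ S.erase j, LV k with hPV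
  set PW : ι → ι → ℤ := fun i j => (∏ k ∈ S.erase j, LU k) * ∏ k ∈ S.erase i, LV k with hPW
  have e1 : ∀ j ∈ S, LU j * PU j = P := by
    intro j hj
    rw [hP']
    simp only [hPU]
    rw [← mul_assoc, mul_prod_erase S LU hj]
  have e2 : ∀ j ∈ S, LV j * PV j = P := by
    intro j hj
    rw [hP']
    simp only [hPV]
    rw [mul_left_comm, mul_prod_erase S LV hj]
  have e3 : ∀ i ∈ S, ∀ j, LV i * PW i j = PU j := by
    intro i hi j
    simp only [hPW, hPU]
    rw [mul_left_comm, mul_prod_erase S LV hi]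
  have e4 : ∀ j ∈ S, ∀ i, LU j * PW i j = PV i := by
    intro j hj i
    simp only [hPW, hPV]
    rw [← mul_assoc, mul_prod_erase S LU hj]
  have hPUpos : ∀ j, 0 < PU j := fun j =>
    mul_pos (prod_pos fun k _ => hLUpos k) (prod_pos fun k _ => hLVpos k)
  have hPVpos : ∀ j, 0 < PV j := fun j =>
    mul_pos (prod_pos fun k _ => hLUpos k) (prod_pos fun k _ => hLVpos k)
  have hPWpos : ∀ i j, 0 < PW i j := fun i j =>
    mul_pos (prod_pos fun k _ => hLUpos k) (prod_pos fun k _ => hLVpos k)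
  have hPUr : ∀ j, Rough Y (PU j) := fun j => rough_mul
    (rough_prod Y _ _ fun k hk => hrU k (mem_of_mem_erase hk)) (rough_prod Y _ _ hrV)
  have hPVr : ∀ j, Rough Y (PV j) := fun j => rough_mul
    (rough_prod Y _ _ hrU) (rough_prod Y _ _ fun k hk => hrV k (mem_of_mem_erase hk))
  set T : ℕ := Y ^ C * (2 * S.card * E + 1) with hT
  have hWP : 0 < W * P := mul_pos hWz hPpos
  set T₀ : ℤ := X * (V + B) / (W * P) + 1 with hT₀
  have hdiv : (W * P) * (X * (V + B) / (W * P)) + X * (V + B) % (W * P) = X * (V + B) :=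
    Int.mul_ediv_add_emod _ _
  have hm0 : 0 ≤ X * (V + B) % (W * P) := Int.emod_nonneg _ hWP.ne'
  have hm1 : X * (V + B) % (W * P) < W * P := Int.emod_lt_of_pos _ hWP
  have hVpos : 0 < V := by linarith
  have hUpos : 0 < U := by linarith
  have hXV : 0 ≤ X * (V + B) := mul_nonneg hX.le (by linarith)
  have hT0pos : 0 < T₀ := by
    have : 0 ≤ X * (V + B) / (W * P) := Int.ediv_nonneg hXV hWP.le
    omega
  -- the range of `t`
  have hrange : ∀ t, T₀ ≤ t → t < T₀ + T →
      0 < t ∧ X * (V + B) < W * P * t ∧ W * P * t ≤ (X + Z - V) * (U - B) := by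
    intro t ht1 ht2
    refine ⟨lt_of_lt_of_le hT0pos ht1, ?_, ?_⟩
    · have g1 : W * P * T₀ ≤ W * P * t := mul_le_mul_of_nonneg_left ht1 hWP.le
      have g2 : W * P * T₀ = W * P * (X * (V + B) / (W * P)) + W * P := by rw [hT₀]; ring
      linarith
    · have g0 : t ≤ T₀ + T - 1 := by omega
      have g1 : W * P * t ≤ W * P * (T₀ + T - 1) := mul_le_mul_of_nonneg_left g0 hWP.le
      have g2 : W * P * (T₀ + T - 1) = W * P * (X * (V + B) / (W * P)) + W * P * T := by
        rw [hT₀]; ring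
      have g3 : 2 * (W * P) * (T : ℤ) ≤ Z * (U - B) := h3
      have g4 : 4 * V * (U - B) ≤ Z * (U - B) := mul_le_mul_of_nonneg_right h2 (by linarith)
      have g5 : W * P * T ≤ Z * (U - B) - V * (U - B) - X * (V - U + 2 * B) := by linarith
      calc W * P * t ≤ W * P * (X * (V + B) / (W * P)) + W * P * T := by linarith
        _ ≤ X * (V + B) + (Z * (U - B) - V * (U - B) - X * (V - U + 2 * B)) := by linarith
        _ = (X + Z - V) * (U - B) := by ring
  set nn : ι → ℤ → ℤ := fun j t => V + a j * W * PU j * t with hnn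
  set nn' : ι → ℤ → ℤ := fun j t => U + a j * W * PV j * t with hnn'
  have hin : ∀ j ∈ S, ∀ t, T₀ ≤ t → t < T₀ + T →
      (X < nn j t ∧ nn j t ≤ X + Z) ∧ (X < nn' j t ∧ nn' j t ≤ X + Z) := by
    intro j hj t ht1 ht2
    obtain ⟨ht0, k1, k2⟩ := hrange t ht1 ht2
    have haj := ha j
    obtain ⟨b1, b2⟩ := hbj j
    have q1 : 0 ≤ a j * W * PU j * t := by
      have := hPUpos j
      positivity
    have q2 : 0 ≤ a j * W * PV j * t := by
      have := hPVpos j
      positivity
    have w1 := aux_win (a j) (LU j) (a j * W * PU j * t) (W * P * t) (U + B) (U - B) haj q1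
      (by rw [← e1 j hj]; ring) (by simp only [hLU]; linarith) (by simp only [hLU]; linarith)
    have w2 := aux_win (a j) (LV j) (a j * W * PV j * t) (W * P * t) (V + B) (V - B) haj q2
      (by rw [← e2 j hj]; ring) (by simp only [hLV]; linarith) (by simp only [hLV]; linarith)
    have hUB' : 0 < U - B := by linarith
    have hVB' : 0 < V - B := by linarith
    have hVB : 0 < V + B := by linarith
    have hXZV : 0 ≤ X + Z - V := by linarith
    refine ⟨⟨?_, ?_⟩, ?_, ?_⟩
    · have g1 : (U + B) * (a j * W * PU j * t) ≤ (V + B) * (a j * W * PU j * t) :=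
        mul_le_mul_of_nonneg_right (by linarith) q1
      have g2 : (V + B) * X < (V + B) * (a j * W * PU j * t) := by linarith [w1.1]
      have g3 : X < a j * W * PU j * t := lt_of_mul_lt_mul_left g2 hVB.le
      simp only [hnn]
      linarith
    · have g2 : (U - B) * (a j * W * PU j * t) ≤ (U - B) * (X + Z - V) := by linarith [w1.2]
      have g3 : a j * W * PU j * t ≤ X + Z - V := le_of_mul_le_mul_left g2 hUB'
      simp only [hnn]
      linarith
    · have g2 : (V + B) * X < (V + B) * (a j * W * PV j * t) := by linarith [w2.1]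
      have g3 : X < a j * W * PV j * t := lt_of_mul_lt_mul_left g2 hVB.le
      simp only [hnn']
      linarith
    · have g1 : (X + Z - V) * (U - B) ≤ (X + Z - U) * (V - B) := by
        have : (X + Z - V) * (U - B) ≤ (X + Z - V) * (V - B) :=
          mul_le_mul_of_nonneg_left (by linarith) hXZV
        have : (X + Z - V) * (V - B) ≤ (X + Z - U) * (V - B) :=
          mul_le_mul_of_nonneg_right (by linarith) hVB'.le
        linarith
      have g2 : (V - B) * (a j * W * PV j * t) ≤ (V - B) * (X + Z - U) := by linarith [w2.2]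
      have g3 : a j * W * PV j * t ≤ X + Z - U := le_of_mul_le_mul_left g2 hVB'
      simp only [hnn']
      linarith
  -- the sieve
  have hs := hSV (ι × {j // j ∈ S} × Bool) (by
      rw [Fintype.card_prod, Fintype.card_prod, Fintype.card_bool, Fintype.card_coe]; exact hK)
    (fun x => a x.1 * (a x.2.1.1 * W * (if x.2.2 then PV x.2.1.1 else PU x.2.1.1)))
    (fun x => a x.1 * (if x.2.2 then U else V) + b x.1) Y hY (by
      rintro ⟨i, ⟨j, hj⟩, β⟩ p hp hpY hd hd'
      simp only at hd hd'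
      have hpW : p ∣ W → False := by
        intro hpW
        have h1 : (p : ℤ) ∣ a i * n₀ + b i := by
          have h2 : (p : ℤ) ∣ (if β then U else V) - n₀ := by
            have hpWz : (p : ℤ) ∣ W := Int.natCast_dvd_natCast.2 hpW
            cases β
            · simpa using hpWz.trans hV
            · simpa using hpWz.trans hU
          have h3 : a i * n₀ + b i = (a i * (if β then U else V) + b i) -
              a i * ((if β then U else V) - n₀) := by ring
          rw [h3]
          exact dvd_sub hd' (h2.mul_left _)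
        exact hn₀ i p hp hpW h1
      rcases Int.Prime.dvd_mul' hp hd with h | h
      · exact hpW (hWa i p hp h)
      rcases Int.Prime.dvd_mul' hp h with h | h
      · rcases Int.Prime.dvd_mul' hp h with h | h
        · exact hpW (hWa j p hp h)
        · exact hpW (Int.natCast_dvd_natCast.1 h)
      · cases β
        · exact hPUr j p hp hpY (by simpa using h)
        · exact hPVr j p hp hpY (by simpa using h))
    (by
      rintro ⟨i, ⟨j, hj⟩, β⟩ p hp hpK
      have hpWz : (p : ℤ) ∣ W := Int.natCast_dvd_natCast.2 (hWp p hp hpK)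
      exact ((hpWz.mul_left _).mul_right _).mul_left _)
    T₀ T (by rw [hT]; exact Nat.le_mul_of_pos_right _ (by omega))
  set G : Set ℤ := {t : ℤ | T₀ ≤ t ∧ t < T₀ + T ∧
    ∀ x : ι × {j // j ∈ S} × Bool, Rough Y (a x.1 * (a x.2.1.1 * W *
      (if x.2.2 then PV x.2.1.1 else PU x.2.1.1)) * t +
      (a x.1 * (if x.2.2 then U else V) + b x.1))} with hG
  have hGfin : G.Finite := (Set.finite_Ico T₀ (T₀ + T)).subset fun t ht => ⟨ht.1, ht.2.1⟩
  have hcard : 2 * S.card * E + 1 ≤ G.ncard := by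
    have h1 : Y ^ C * (2 * S.card * E + 1) ≤ Y ^ C * G.ncard := hs
    exact Nat.le_of_mul_le_mul_left h1 (by positivity)
  have hr1 : ∀ t ∈ G, ∀ j ∈ S, ∀ i, Rough Y (a i * nn j t + b i) := by
    intro t ht j hj i
    have := ht.2.2 (i, ⟨j, hj⟩, false)
    have e : a i * nn j t + b i = a i * (a j * W * PU j) * t + (a i * V + b i) := by
      simp only [hnn]
      ring
    rw [e]
    simpa using this
  have hr2 : ∀ t ∈ G, ∀ j ∈ S, ∀ i, Rough Y (a i * nn' j t + b i) := by
    intro t ht j hj i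
    have := ht.2.2 (i, ⟨j, hj⟩, true)
    have e : a i * nn' j t + b i = a i * (a j * W * PV j) * t + (a i * U + b i) := by
      simp only [hnn']
      ring
    rw [e]
    simpa using this
  have hcl1 : ∀ j t, (W : ℤ) ∣ nn j t - n₀ := by
    intro j t
    have e : nn j t - n₀ = (V - n₀) + W * (a j * PU j * t) := by simp only [hnn]; ring
    rw [e]
    exact dvd_add hV (dvd_mul_right _ _)
  have hcl2 : ∀ j t, (W : ℤ) ∣ nn' j t - n₀ := by
    intro j t
    have e : nn' j t - n₀ = (U - n₀) + W * (a j * PV j * t) := by simp only [hnn']; ring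
    rw [e]
    exact dvd_add hU (dvd_mul_right _ _)
  by_contra hne
  have hcover : ∀ t ∈ G, ∃ j ∈ S, nn j t ∈ Exc a b S F c W n₀ Y X Z ∨
      nn' j t ∈ Exc a b S F c W n₀ Y X Z := by
    intro t ht
    by_contra hcon
    push Not at hcon
    obtain ⟨ht0, -, -⟩ := hrange t ht.1 ht.2.1
    apply hne
    refine algebra a b S hS F c U V (fun j => nn j t) (fun j => nn' j t)
      (fun i j => F (1 + a i * a j * W * PW i j * t)) ?_ ?_ ?_ ?_
    · intro j hj i hi
      have e : a i * nn j t + b i = LV i * (1 + a i * a j * W * PW i j * t) := by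
        have := e3 i hi j
        simp only [hnn]
        rw [← this]
        simp only [hLV]
        ring
      have hpos : 0 < 1 + a i * a j * W * PW i j * t := by
        have := ha i
        have := ha j
        have := hPWpos i j
        positivity
      rw [e, hF _ _ (hLVpos i).ne' hpos.ne']
    · intro i hi j hj
      have e : a j * nn' i t + b j = LU j * (1 + a i * a j * W * PW i j * t) := by
        have := e4 j hj i
        simp only [hnn']
        rw [← this]
        simp only [hLU]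
        ring
      have hpos : 0 < 1 + a i * a j * W * PW i j * t := by
        have := ha i
        have := ha j
        have := hPWpos i j
        positivity
      rw [e, hF _ _ (hLUpos j).ne' hpos.ne']
    · intro j hj
      by_contra h
      obtain ⟨k1, -⟩ := hin j hj t ht.1 ht.2.1
      exact (hcon j hj).1 ⟨k1.1, k1.2, hcl1 j t, hr1 t ht j hj, h⟩
    · intro j hj
      by_contra h
      obtain ⟨-, k1⟩ := hin j hj t ht.1 ht.2.1
      exact (hcon j hj).2 ⟨k1.1, k1.2, hcl2 j t, hr2 t ht j hj, h⟩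
  set Gf := hGfin.toFinset with hGf
  set Ef := (exc_finite a b S F c W n₀ Y X Z).toFinset with hEf
  have hEfc : Ef.card ≤ E := by
    rw [hEf, ← Set.ncard_eq_toFinset_card _ (exc_finite a b S F c W n₀ Y X Z)]; exact hE
  have hGfc : Gf.card = G.ncard := by
    rw [hGf, ← Set.ncard_eq_toFinset_card _ hGfin]
  have hsub : Gf ⊆ S.biUnion (fun j => Gf.filter (fun t => nn j t ∈ Ef) ∪
      Gf.filter (fun t => nn' j t ∈ Ef)) := by
    intro t ht
    obtain ⟨j, hj, h⟩ := hcover t (hGfin.mem_toFinset.1 ht)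
    refine mem_biUnion.2 ⟨j, hj, ?_⟩
    rcases h with h | h
    · exact mem_union_left _ (mem_filter.2 ⟨ht, (Set.Finite.mem_toFinset _).2 h⟩)
    · exact mem_union_right _ (mem_filter.2 ⟨ht, (Set.Finite.mem_toFinset _).2 h⟩)
  have hinj1 : ∀ j ∈ S, (Gf.filter (fun t => nn j t ∈ Ef)).card ≤ E := by
    intro j hj
    refine le_trans (Finset.card_le_card_of_injOn (nn j) (fun t ht => (mem_filter.1 ht).2) ?_) hEfc
    intro s _ t _ hst
    simp only [hnn] at hst
    have hc : a j * W * PU j ≠ 0 := by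
      have := ha j
      have := hPUpos j
      positivity
    exact mul_left_cancel₀ hc (by linarith)
  have hinj2 : ∀ j ∈ S, (Gf.filter (fun t => nn' j t ∈ Ef)).card ≤ E := by
    intro j hj
    refine le_trans (Finset.card_le_card_of_injOn (nn' j) (fun t ht => (mem_filter.1 ht).2) ?_) hEfc
    intro s _ t _ hst
    simp only [hnn'] at hst
    have hc : a j * W * PV j ≠ 0 := by
      have := ha j
      have := hPVpos j
      positivity
    exact mul_left_cancel₀ hc (by linarith)
  have hfin : Gf.card ≤ S.card * (2 * E) := by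
    refine (card_le_card hsub).trans (card_biUnion_le.trans ?_)
    refine (sum_le_card_nsmul S _ (2 * E) fun j hj => ?_).trans (by rw [smul_eq_mul])
    refine (card_union_le _ _).trans ?_
    have := hinj1 j hj
    have := hinj2 j hj
    omega
  have : S.card * (2 * E) = 2 * S.card * E := by ring
  omega

end Pool.Agent.W5h75.SQ
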