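import Mathlib
import Pool.Agent.W5h75.SQ.Link

/-!
Signs of products of an odd number of terms of rough tuples, in short intervals: the chain of
comparisons.
-/

set_option autoImplicit false

open Finset

namespace Pool.Agent.W5h75.SQ

open Pool.Agent.H661R3.OP
open Pool.Agent.W5h75.SP (SVK rough_mul rough_ne_zero)

theorem ex_tuple {ι : Type} (a b : ι → ℤ) (S : Finset ι) (W : ℕ) (n₀ : ℤ)
    (K C : ℕ) (hSV : SVK K C) (hK : S.card ≤ K)
    (hWp : ∀ p : ℕ, p.Prime → p ≤ 2 * K → p ∣ W)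
    (hWa : ∀ i, ∀ p : ℕ, p.Prime → (p : ℤ) ∣ a i → p ∣ W)
    (hn₀ : ∀ i, ∀ p : ℕ, p.Prime → p ∣ W → ¬ (p : ℤ) ∣ a i * n₀ + b i)
    (Y : ℕ) (hY : 2 ≤ Y) (L : ℤ) :
    ∃ v : ℤ, L ≤ v ∧ v < L + (Y ^ C : ℕ) ∧ ∀ i ∈ S, Rough Y (a i * (n₀ + W * v) + b i) := by
  have h := hSV {j // j ∈ S} (by rw [Fintype.card_coe]; exact hK) (fun j => a j.1 * W)
    (fun j => a j.1 * n₀ + b j.1) Y hY
    (by
      rintro ⟨j, hj⟩ p hp _ hd hd'
      rcases Int.Prime.dvd_mul' hp hd with h | h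
      · exact hn₀ j p hp (hWa j p hp h) hd'
      · exact hn₀ j p hp (Int.natCast_dvd_natCast.1 h) hd')
    (by
      rintro ⟨j, hj⟩ p hp hpK
      exact (Int.natCast_dvd_natCast.2 (hWp p hp hpK)).mul_left _)
    L (Y ^ C) le_rfl
  have hpos : 0 < Y ^ C := by positivity
  have hne : {t : ℤ | L ≤ t ∧ t < L + (Y ^ C : ℕ) ∧ ∀ j : {j // j ∈ S},
      Rough Y (a j.1 * W * t + (a j.1 * n₀ + b j.1))}.Nonempty := by
    apply Set.nonempty_of_ncard_ne_zero
    intro h0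
    rw [h0] at h
    omega
  obtain ⟨t, h1, h2, h3⟩ := hne
  refine ⟨t, h1, h2, fun i hi => ?_⟩
  have h4 := h3 ⟨i, hi⟩
  have e : a i * (n₀ + W * t) + b i = a i * W * t + (a i * n₀ + b i) := by ring
  rw [e]
  exact h4

theorem chain {ι : Type} [Fintype ι] (a b : ι → ℤ) (S : Finset ι) (hS : Odd S.card) (W : ℕ)
    (n₀ : ℤ)
    (K C : ℕ) (hSV : SVK K C) (hK : Fintype.card ι * (S.card * 2) ≤ K) (hW : 0 < W)
    (hWp : ∀ p : ℕ, p.Prime → p ≤ 2 * K → p ∣ W)
    (hWa : ∀ i, ∀ p : ℕ, p.Prime → (p : ℤ) ∣ a i → p ∣ W)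
    (ha : ∀ i, 0 < a i) (B : ℤ) (hB : ∀ i, |b i| ≤ B)
    (hn₀ : ∀ i, ∀ p : ℕ, p.Prime → p ∣ W → ¬ (p : ℤ) ∣ a i * n₀ + b i)
    (Y : ℕ) (hY : 2 ≤ Y) (F : ℤ → ZMod 2) (hF : Add2 F) (c : ZMod 2) (X Z : ℤ) (E : ℕ)
    (hE : (Exc a b S F c W n₀ Y X Z).ncard ≤ E) (hX : 0 < X)
    (hB0 : 0 ≤ B) (A A' κ : ℤ) (hA : B < A) (hκ : ∀ i, a i + B ≤ κ)
    (h1 : 4 * X * (2 * (W * (Y ^ C : ℕ)) + 2 * B) ≤ Z * (A - B)) (h2 : 4 * A' ≤ Z)
    (h3 : 2 * (W * (κ * A') ^ (2 * S.card)) *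
      (Y ^ C * (2 * S.card * E + 1) : ℕ) ≤ Z * (A - B)) :
    ∀ n : ℕ, ∀ U V : ℤ, A ≤ U → U ≤ V → V ≤ A' → V - U ≤ n → (W : ℤ) ∣ U - n₀ → (W : ℤ) ∣ V - n₀ →
      (∀ i ∈ S, Rough Y (a i * U + b i)) → (∀ i ∈ S, Rough Y (a i * V + b i)) →
      RR a b S F U = RR a b S F V := by
  have hWz : (0 : ℤ) < W := by exact_mod_cast hW
  have hM : (0 : ℤ) < (Y ^ C : ℕ) := by positivity
  have hScard : 0 < S.card := hS.pos
  have hι : S.card ≤ Fintype.card ι := Finset.card_le_univ S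
  have hSK : S.card ≤ K := by nlinarith
  -- one link
  have hlink : ∀ U V : ℤ, A ≤ U → U ≤ V → V ≤ A' → V - U ≤ 2 * (W * (Y ^ C : ℕ)) →
      (W : ℤ) ∣ U - n₀ → (W : ℤ) ∣ V - n₀ →
      (∀ i ∈ S, Rough Y (a i * U + b i)) → (∀ i ∈ S, Rough Y (a i * V + b i)) →
      RR a b S F U = RR a b S F V := by
    intro U V hAU hUV hVA hd hU hV hrU hrV
    have hA'0 : 0 < A' := by linarith
    have hZ : 0 < Z := by linarith
    have hmon : Z * (A - B) ≤ Z * (U - B) := mul_le_mul_of_nonneg_left (by linarith) hZ.le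
    refine link a b S hS W n₀ K C hSV hK hW hWp hWa ha B hB hn₀ Y hY F hF c X Z E hE hX U V hB0
      (by linarith) hUV hU hV hrU hrV ?_ (by linarith) ?_
    · have : 4 * X * (V - U + 2 * B) ≤ 4 * X * (2 * (W * (Y ^ C : ℕ)) + 2 * B) :=
        mul_le_mul_of_nonneg_left (by linarith) (by linarith)
      linarith
    · refine le_trans ?_ hmon
      refine le_trans ?_ h3
      have hle : ∀ x : ℤ, B < x → x ≤ A' → ∀ i, 0 ≤ a i * x + b i ∧ a i * x + b i ≤ κ * A' := by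
        intro x hx1 hx2 i
        obtain ⟨g1, g2⟩ := abs_le.1 (hB i)
        have hai := ha i
        have g3 : a i * x ≤ a i * A' := mul_le_mul_of_nonneg_left hx2 hai.le
        have g4 : B ≤ B * A' := by nlinarith
        have g5 : (a i + B) * A' ≤ κ * A' := mul_le_mul_of_nonneg_right (hκ i) hA'0.le
        have g6 : B < a i * x := by nlinarith
        exact ⟨by linarith, by linarith⟩
      have hP : ∏ j ∈ S, (a j * U + b j) * (a j * V + b j) ≤ (κ * A') ^ (2 * S.card) := by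
        calc ∏ j ∈ S, (a j * U + b j) * (a j * V + b j) ≤ ∏ j ∈ S, (κ * A') ^ 2 := by
              refine prod_le_prod (fun j _ => ?_) (fun j _ => ?_)
              · exact mul_nonneg (hle U (by linarith) (by linarith) j).1
                  (hle V (by linarith) hVA j).1
              · rw [sq]
                have k1 := hle U (by linarith) (by linarith) j
                have k2 := hle V (by linarith) hVA j
                exact mul_le_mul k1.2 k2.2 k2.1 (k1.1.trans k1.2)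
          _ = (κ * A') ^ (2 * S.card) := by rw [prod_const, ← pow_mul]
      have hN : (0 : ℤ) ≤ (Y ^ C * (2 * S.card * E + 1) : ℕ) := by positivity
      refine mul_le_mul_of_nonneg_right ?_ hN
      have := mul_le_mul_of_nonneg_left hP hWz.le
      linarith
  intro n
  induction n with
  | zero =>
    intro U V _ hUV _ hd _ _ _ _
    have : U = V := by push_cast at hd; omega
    rw [this]
  | succ n ih =>
    intro U V hAU hUV hVA hd hU hV hrU hrV
    by_cases hsmall : V - U ≤ 2 * (W * (Y ^ C : ℕ))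
    · exact hlink U V hAU hUV hVA hsmall hU hV hrU hrV
    · push Not at hsmall
      obtain ⟨w, hw⟩ := hV
      obtain ⟨v, k1, k2, k3⟩ := ex_tuple a b S W n₀ K C hSV hSK hWp hWa hn₀ Y hY
        (w - 2 * (Y ^ C : ℕ))
      have g1 : W * (w - v) ≤ W * (2 * (Y ^ C : ℕ)) := mul_le_mul_of_nonneg_left (by linarith) hWz.le
      have g2 : 0 < W * (w - v) := mul_pos hWz (by linarith)
      have g3 : V - (n₀ + W * v) = W * (w - v) := by linear_combination hw
      have hcl : (W : ℤ) ∣ (n₀ + W * v) - n₀ := ⟨v, by ring⟩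
      rw [ih U (n₀ + W * v) hAU (by linarith) (by linarith) (by push_cast at hd; omega) hU hcl hrU k3]
      exact hlink (n₀ + W * v) V (by linarith) (by linarith) hVA (by linarith) hcl ⟨w, hw⟩ k3 hrV

end Pool.Agent.W5h75.SQ
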