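import Mathlib
import Pool.Agent.W5h75.SQ.Chain
import Pool.Agent.H661R3.OP.CR
import Pool.Agent.H661R3.OP.Final

/-!
The modulus and the residue class, and the theorem for long intervals (from the starting files).
-/

set_option autoImplicit false

open Finset

namespace Pool.Agent.W5h75.SQ

open Pool.Agent.H661R3.OP

/-- the parity of the number of prime factors -/
def Fpar (x : ℤ) : ZMod 2 := ((ArithmeticFunction.cardFactors x.natAbs : ℕ) : ZMod 2)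

theorem add2_Fpar : Add2 Fpar := by
  intro x y hx hy
  unfold Fpar
  rw [Int.natAbs_mul, ArithmeticFunction.cardFactors_mul (Int.natAbs_ne_zero.mpr hx)
    (Int.natAbs_ne_zero.mpr hy)]
  push_cast
  rfl

theorem exists_W (ι : Type) [Fintype ι] (a b : ι → ℤ) (ha : ∀ i, 0 < a i) (K m : ℕ) (hm : 0 < m)
    (r : ℤ) (hadm : ∀ p : ℕ, p.Prime → ∃ n : ℤ, ∀ i, ¬ (p : ℤ) ∣ a i * (r + m * n) + b i) :
    ∃ (W : ℕ) (n₀ : ℤ), 0 < W ∧ (∀ p : ℕ, p.Prime → p ≤ 2 * K → p ∣ W) ∧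
      (∀ i, ∀ p : ℕ, p.Prime → (p : ℤ) ∣ a i → p ∣ W) ∧ m ∣ W ∧ (m : ℤ) ∣ n₀ - r ∧
      (∀ i, ∀ p : ℕ, p.Prime → p ∣ W → ¬ (p : ℤ) ∣ a i * n₀ + b i) ∧
      (∀ p : ℕ, p.Prime → ∃ n : ℤ, ∀ i, ¬ (p : ℤ) ∣ a i * W * n + (a i * n₀ + b i)) := by
  classical
  set W : ℕ := primorial (2 * K) * m * ∏ i, (a i).natAbs with hW
  have hW0 : 0 < W := by
    have h1 : 0 < ∏ i, (a i).natAbs := prod_pos fun i _ => by
      have := ha i
      omega
    exact Nat.mul_pos (Nat.mul_pos (primorial_pos _) hm) h1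
  choose r' hr' using hadm
  obtain ⟨n', hn'⟩ := t_CR {p : Fin (W + 1) // (p : ℕ).Prime} (fun p => ((p.1 : ℕ) : ℤ))
    (fun p => r' p.1 p.2) (by
      rintro ⟨i, hi⟩ ⟨j, hj⟩ hij
      have hne : (i : ℕ) ≠ (j : ℕ) := by
        intro hh
        apply hij
        ext
        exact hh
      exact Nat.isCoprime_iff_coprime.2 ((Nat.coprime_primes hi hj).2 hne))
  have hn₀ : ∀ i, ∀ p : ℕ, p.Prime → p ∣ W → ¬ (p : ℤ) ∣ a i * (r + m * n') + b i := by
    intro i p hp hpW hd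
    have hpK : p ≤ W := Nat.le_of_dvd hW0 hpW
    have h1 := hn' ⟨⟨p, by omega⟩, hp⟩
    refine hr' p hp i ?_
    have h2 : a i * (r + m * r' p hp) + b i = (a i * (r + m * n') + b i) -
        a i * m * (n' - r' p hp) := by ring
    rw [h2]
    exact dvd_sub hd (h1.mul_left _)
  refine ⟨W, r + m * n', hW0, ?_, ?_, ?_, ⟨n', by ring⟩, hn₀, ?_⟩
  · intro p hp h
    exact (((hp.dvd_primorial_iff.2 h).mul_right _).mul_right _)
  · intro i p hp h
    have h1 : p ∣ (a i).natAbs := Int.natCast_dvd.1 h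
    exact (h1.trans (dvd_prod_of_mem (fun i => (a i).natAbs) (mem_univ i))).mul_left _
  · exact (dvd_mul_left m _).mul_right _
  · intro p hp
    by_cases hpW : p ∣ W
    · refine ⟨0, fun i hd => hn₀ i p hp hpW ?_⟩
      simpa using hd
    · have hc2 : IsCoprime (W : ℤ) (p : ℤ) := by
        rw [Nat.isCoprime_iff_coprime]
        exact ((Nat.Prime.coprime_iff_not_dvd hp).2 hpW).symm
      obtain ⟨u', v', huv'⟩ := hc2
      refine ⟨u' * ((r + m * r' p hp) - (r + m * n')), fun i hd => hr' p hp i ?_⟩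
      have h1 : a i * (r + m * r' p hp) + b i =
          (a i * W * (u' * ((r + m * r' p hp) - (r + m * n'))) + (a i * (r + m * n') + b i)) +
          p * (a i * v' * ((r + m * r' p hp) - (r + m * n'))) := by
        linear_combination (-(a i * ((r + m * r' p hp) - (r + m * n')))) * huv'
      rw [h1]
      exact dvd_add hd (dvd_mul_right _ _)

theorem both_signs (ι : Type) [Fintype ι] (a b : ι → ℤ) (S : Finset ι)
    (ha : ∀ i, 0 < a i) (hdet : ∀ i j, i ≠ j → a i * b j - a j * b i ≠ 0) (hS : Odd S.card)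
    (W : ℕ) (n₀ : ℤ) (hW : 0 < W)
    (hadm : ∀ p : ℕ, p.Prime → ∃ n : ℤ, ∀ i, ¬ (p : ℤ) ∣ a i * W * n + (a i * n₀ + b i))
    (γ η : ℝ) (hγ : 0 ≤ γ) (hη : 0 < η) (hγη : γ + 2 * η ≤ 1) :
    ∃ δ : ℝ, 0 < δ ∧ ∃ x₀ : ℝ, ∀ x : ℝ, x₀ ≤ x → ∀ u : ZMod 2, ∃ U : ℤ,
      x ^ (γ + η) ≤ U ∧ (U : ℝ) ≤ x ^ (γ + 2 * η) ∧ (W : ℤ) ∣ U - n₀ ∧
      (∀ i, ∀ p : ℕ, p.Prime → (p : ℤ) ∣ a i * U + b i → x ^ δ < p) ∧
      RR a b S Fpar U = u := by
  have hWz : (0 : ℤ) < W := by exact_mod_cast hW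
  have hWr : (1 : ℝ) ≤ W := by exact_mod_cast hW
  obtain ⟨δ₁, hδ₁, x₁, hmain⟩ := Pool.Agent.H661R3.OP.liou ι (fun i => a i * W)
    (fun i => a i * n₀ + b i) S (fun i => mul_pos (ha i) hWz) (by
      intro i j hij h0
      apply hdet i j hij
      have h1 : (W : ℤ) * (a i * b j - a j * b i) = 0 := by linear_combination h0
      rcases mul_eq_zero.1 h1 with h | h
      · exact absurd h hWz.ne'
      · exact h) hS hadm (η / 4) (by positivity)
  refine ⟨η * δ₁, by positivity, ?_⟩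
  have hl1 : ∀ᶠ x : ℝ in Filter.atTop, (2 * W : ℝ) * (|x₁| + 1) + 2 * |(n₀ : ℝ)| + 2 ≤ x ^ η :=
    (tendsto_rpow_atTop hη).eventually_ge_atTop _
  have hl2 : ∀ᶠ x : ℝ in Filter.atTop, (4 * W : ℝ) + 1 ≤ x ^ (3 * η / 4) :=
    (tendsto_rpow_atTop (by positivity)).eventually_ge_atTop _
  have hl3 : ∀ᶠ x : ℝ in Filter.atTop, (1 : ℝ) ≤ x := Filter.eventually_ge_atTop _
  obtain ⟨x₀, hx₀⟩ := Filter.eventually_atTop.mp (hl1.and (hl2.and hl3))
  refine ⟨x₀, fun x hx u => ?_⟩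
  obtain ⟨h1, h2, hx1⟩ := hx₀ x hx
  have hx0 : (0 : ℝ) < x := by linarith
  have hn0 : 0 ≤ |(n₀ : ℝ)| := abs_nonneg _
  have hx10 : 0 ≤ |x₁| := abs_nonneg _
  have hWx : 0 ≤ (2 * W : ℝ) * |x₁| := by positivity
  have hη2W : (2 * W : ℝ) ≤ x ^ η := by nlinarith
  have hηn : 2 * |(n₀ : ℝ)| + 2 ≤ x ^ η := by nlinarith
  have hηx1 : 2 * W * x₁ ≤ x ^ η := by
    have : 2 * W * x₁ ≤ 2 * W * |x₁| := mul_le_mul_of_nonneg_left (le_abs_self _) (by positivity)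
    nlinarith
  have hxη : 0 < x ^ η := by positivity
  set y : ℝ := x ^ (γ + 2 * η) with hy
  have hy0 : 0 < y := by positivity
  have hyη : x ^ η * x ^ η ≤ y := by
    rw [← Real.rpow_add hx0]
    exact Real.rpow_le_rpow_of_exponent_le hx1 (by linarith)
  set x' : ℝ := y / (2 * W) with hx'
  have hx'0 : 0 < x' := by positivity
  have hW2 : (0 : ℝ) < 2 * W := by positivity
  have hWx' : 2 * W * x' = y := by rw [hx']; field_simp
  have hx'η : x ^ η ≤ x' := by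
    rw [hx', le_div_iff₀ hW2]
    calc x ^ η * (2 * W) ≤ x ^ η * x ^ η := mul_le_mul_of_nonneg_left hη2W hxη.le
      _ ≤ y := hyη
  have hx'1 : x₁ ≤ x' := by
    have h3 : x ^ η ≤ y := by
      calc x ^ η = x ^ η * 1 := (mul_one _).symm
        _ ≤ x ^ η * x ^ η := mul_le_mul_of_nonneg_left (by linarith) hxη.le
        _ ≤ y := hyη
    rw [hx', le_div_iff₀ hW2]
    linarith
  have hm := hmain x' hx'1 u
  set N : Set ℕ := {n : ℕ | 0 < n ∧ (n : ℝ) ≤ x' ∧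
    (∀ i, 0 < a i * W * n + (a i * n₀ + b i) ∧ ∀ p : ℕ, p.Prime →
      (p : ℤ) ∣ a i * W * n + (a i * n₀ + b i) → x' ^ δ₁ < p) ∧
    ((∑ i ∈ S, ArithmeticFunction.cardFactors (a i * W * n + (a i * n₀ + b i)).natAbs : ℕ) :
      ZMod 2) = u} with hN
  have hex : ∃ n ∈ N, x ^ (γ + η) ≤ ((n₀ + W * n : ℤ) : ℝ) := by
    by_contra hcon
    push Not at hcon
    have hsub : N ⊆ ↑(Finset.range ⌈x ^ (γ + η) + |(n₀ : ℝ)|⌉₊) := by
      intro n hn
      have h3 := hcon n hn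
      push_cast at h3
      rw [Finset.coe_range, Set.mem_Iio]
      have h4 : (n : ℝ) < x ^ (γ + η) + |(n₀ : ℝ)| := by
        have h5 : -(n₀ : ℝ) ≤ |(n₀ : ℝ)| := neg_le_abs _
        have h6 : (n : ℝ) ≤ W * n := by
          have : (0 : ℝ) ≤ n := by positivity
          nlinarith
        linarith
      exact Nat.lt_ceil.2 h4
    have hc := Set.ncard_le_ncard hsub (Finset.finite_toSet _)
    rw [Set.ncard_coe_finset, Finset.card_range] at hc
    have hc' : (N.ncard : ℝ) ≤ (⌈x ^ (γ + η) + |(n₀ : ℝ)|⌉₊ : ℝ) := by exact_mod_cast hc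
    have hp0 : 0 < x ^ (γ + η) := by positivity
    have hc2 : (⌈x ^ (γ + η) + |(n₀ : ℝ)|⌉₊ : ℝ) < x ^ (γ + η) + |(n₀ : ℝ)| + 1 :=
      Nat.ceil_lt_add_one (by positivity)
    have hge : x ^ η ≤ x ^ (γ + η) := Real.rpow_le_rpow_of_exponent_le hx1 (by linarith)
    -- lower bound
    have hlow : x ^ (γ + η) * x ^ (3 * η / 4) / (2 * W) ≤ x' ^ (1 - η / 4) := by
      have g1 : x' ^ (1 - η / 4) = y ^ (1 - η / 4) / (2 * W) ^ (1 - η / 4) :=
        Real.div_rpow hy0.le hW2.le _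
      have g2 : ((2 : ℝ) * W) ^ (1 - η / 4) ≤ 2 * W := by
        calc ((2 : ℝ) * W) ^ (1 - η / 4) ≤ (2 * W) ^ (1 : ℝ) :=
              Real.rpow_le_rpow_of_exponent_le (by linarith) (by linarith)
          _ = 2 * W := Real.rpow_one _
      have g3 : x ^ (γ + η) * x ^ (3 * η / 4) ≤ y ^ (1 - η / 4) := by
        rw [hy, ← Real.rpow_mul hx0.le, ← Real.rpow_add hx0]
        apply Real.rpow_le_rpow_of_exponent_le hx1
        nlinarith
      rw [g1]
      have g4 : (0 : ℝ) < (2 * W) ^ (1 - η / 4) := by positivity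
      exact div_le_div₀ (by positivity) g3 g4 g2
    have h5 : x ^ (γ + η) * (4 * W + 1) / (2 * W) ≤ x ^ (γ + η) * x ^ (3 * η / 4) / (2 * W) := by
      apply div_le_div_of_nonneg_right _ hW2.le
      exact mul_le_mul_of_nonneg_left h2 hp0.le
    have h6 : 2 * x ^ (γ + η) ≤ x ^ (γ + η) * (4 * W + 1) / (2 * W) := by
      rw [le_div_iff₀ hW2]
      nlinarith
    linarith
  obtain ⟨n, ⟨hn1, hn2, hn3, hn4⟩, hn5⟩ := hex
  have heq : ∀ i, a i * (n₀ + W * n) + b i = a i * W * n + (a i * n₀ + b i) := fun i => by ring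
  refine ⟨n₀ + W * n, hn5, ?_, ⟨n, by ring⟩, ?_, ?_⟩
  · push_cast
    have h3 : (n₀ : ℝ) ≤ |(n₀ : ℝ)| := le_abs_self _
    have h4 : (W : ℝ) * n ≤ W * x' := mul_le_mul_of_nonneg_left hn2 (by positivity)
    have h5 : x ^ η ≤ y := by
      calc x ^ η = x ^ η * 1 := (mul_one _).symm
        _ ≤ x ^ η * x ^ η := mul_le_mul_of_nonneg_left (by linarith) hxη.le
        _ ≤ y := hyη
    linarith
  · intro i p hp hd
    rw [heq] at hd
    have h3 := (hn3 i).2 p hp hd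
    calc x ^ (η * δ₁) = (x ^ η) ^ δ₁ := Real.rpow_mul hx0.le _ _
      _ ≤ x' ^ δ₁ := Real.rpow_le_rpow hxη.le hx'η hδ₁.le
      _ < p := h3
  · rw [← hn4]
    unfold RR Fpar
    push_cast
    exact sum_congr rfl fun i _ => by rw [heq]

end Pool.Agent.W5h75.SQ
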