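import Mathlib
import Pool.Agent.W5h75.SQ.Long
import Pool.Agent.H661R3.OP.Cor

/-!
Parity of the number of prime factors of the product of an odd number of members of a rough tuple,
in all intervals `(x, x + x ^ θ]`, `θ > 1 - 1 / (2 |S|)`.
-/

set_option autoImplicit false

open Finset

namespace Pool.Agent.W5h75.SQ

open Pool.Agent.H661R3.OP
open Pool.Agent.W5h75.SP (SVK exists_SVK rough_mul rough_ne_zero)

theorem liouOdd (ι : Type) [Fintype ι] (a b : ι → ℤ) (S : Finset ι) (ha : ∀ i, 0 < a i)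
    (hdet : ∀ i j, i ≠ j → a i * b j - a j * b i ≠ 0) (hS : Odd S.card) (m : ℕ) (hm : 0 < m)
    (r : ℤ) (hadm : ∀ p : ℕ, p.Prime → ∃ n : ℤ, ∀ i, ¬ (p : ℤ) ∣ a i * (r + m * n) + b i)
    (θ ε : ℝ) (hθ : 1 - 1 / (2 * S.card) < θ) (hθ1 : θ ≤ 1) (hε : 0 < ε) :
    ∃ (R : ℕ) (δ : ℝ), 0 < δ ∧ ∃ x₀ : ℝ, ∀ x : ℝ, x₀ ≤ x → ∀ s : ZMod 2,
    x ^ (1 - 2 * S.card * (1 - θ) - ε) ≤ ({n : ℕ | x < n ∧ (n : ℝ) ≤ x + x ^ θ ∧ (m : ℤ) ∣ n - r ∧
      (∀ i, 0 < a i * n + b i ∧ ArithmeticFunction.cardFactors (a i * n + b i).natAbs ≤ R ∧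
        ∀ p : ℕ, p.Prime → (p : ℤ) ∣ a i * n + b i → x ^ δ < p) ∧
      ((∑ i ∈ S, ArithmeticFunction.cardFactors (a i * n + b i).natAbs : ℕ) : ZMod 2) =
        s}.ncard : ℝ) := by
  classical
  have hScard : 0 < S.card := hS.pos
  set σ : ℝ := (S.card : ℝ) with hσ
  have hσ1 : 1 ≤ σ := by rw [hσ]; exact_mod_cast hScard
  have hσ0 : 0 < σ := by linarith
  set K : ℕ := Fintype.card ι * (S.card * 2) with hK
  obtain ⟨C, hSV⟩ := exists_SVK K
  obtain ⟨W, n₀, hW, hWp, hWa, hmW, hn₀r, hn₀, hadm'⟩ := exists_W ι a b ha K m hm r hadm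
  have hWz : (0 : ℤ) < W := by exact_mod_cast hW
  have hWr : (1 : ℝ) ≤ W := by exact_mod_cast hW
  -- exponents
  set γ : ℝ := 1 - θ with hγ
  have hγ0 : 0 ≤ γ := by rw [hγ]; linarith
  have h2σ : (0 : ℝ) < 2 * σ := by linarith
  have hρ0 : 0 < 1 - 2 * σ * γ := by
    have h1 : γ < 1 / (2 * σ) := by rw [hγ]; linarith
    rw [lt_div_iff₀ h2σ] at h1
    linarith
  set ρ : ℝ := 1 - 2 * σ * γ with hρ
  have hσγ : 0 ≤ σ * γ := by positivity
  have hγσ : γ ≤ σ * γ := by nlinarith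
  set e : ℝ := min ε ρ with he
  have he0 : 0 < e := lt_min hε hρ0
  have heε : e ≤ ε := min_le_left _ _
  have heρ : e ≤ ρ := min_le_right _ _
  have he1 : e ≤ 1 := by linarith
  set η : ℝ := e / (8 * σ) with hη
  have h8σ : (0 : ℝ) < 8 * σ := by linarith
  have hη0 : 0 < η := by positivity
  have hησ : 8 * σ * η = e := by rw [hη]; field_simp
  have hησ0 : 0 < σ * η := by positivity
  have hη8 : 8 * η ≤ e := by nlinarith
  have hγη : γ + 2 * η ≤ 1 := by nlinarith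
  obtain ⟨δ₁, hδ₁, x₁, hboth⟩ := both_signs ι a b S ha hdet hS W n₀ hW hadm' γ η hγ0 hη0 hγη
  set δ : ℝ := min δ₁ (η / (8 * (C + 1))) with hδ
  have hC1 : (0 : ℝ) < 8 * (C + 1) := by positivity
  have hδ0 : 0 < δ := lt_min hδ₁ (by positivity)
  have hδ1 : δ ≤ δ₁ := min_le_left _ _
  have hδC : δ * C ≤ η / 8 := by
    have h1 : δ ≤ η / (8 * (C + 1)) := min_le_right _ _
    rw [le_div_iff₀ hC1] at h1
    nlinarith
  obtain ⟨R, hR⟩ := exists_nat_ge (2 / δ)
  set B : ℤ := ∑ i, |b i| with hB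
  have hB0 : 0 ≤ B := sum_nonneg fun i _ => abs_nonneg _
  have hBi : ∀ i, |b i| ≤ B := fun i =>
    single_le_sum (f := fun i => |b i|) (fun i _ => abs_nonneg _) (mem_univ i)
  set κ : ℤ := ∑ i, a i + B with hκ
  have hκi : ∀ i, a i + B ≤ κ := fun i => by
    have := single_le_sum (f := a) (fun i _ => (ha i).le) (mem_univ i)
    rw [hκ]
    linarith
  obtain ⟨i₀, hi₀⟩ := Finset.card_pos.1 hScard
  have hκ1 : 1 ≤ κ := by
    have := hκi i₀
    have := ha i₀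
    linarith
  have hB0r : (0 : ℝ) ≤ B := by exact_mod_cast hB0
  have hκ1r : (1 : ℝ) ≤ κ := by exact_mod_cast hκ1
  set c₃ : ℝ := 8 * (W * (κ : ℝ) ^ (2 * S.card)) * (2 * σ + 1) with hc₃
  have hc₃0 : 0 ≤ c₃ := by positivity
  -- largeness
  have hl1 : ∀ᶠ x : ℝ in Filter.atTop, (2 : ℝ) ≤ x ^ δ :=
    (tendsto_rpow_atTop hδ0).eventually_ge_atTop _
  have hl2 : ∀ᶠ x : ℝ in Filter.atTop, 64 * ((W : ℝ) + B) ≤ x ^ (7 * η / 8) :=
    (tendsto_rpow_atTop (by positivity)).eventually_ge_atTop _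
  have hl3 : ∀ᶠ x : ℝ in Filter.atTop, 8 + c₃ ≤ x ^ (e / 2) :=
    (tendsto_rpow_atTop (by positivity)).eventually_ge_atTop _
  have hl4 : ∀ᶠ x : ℝ in Filter.atTop, 2 * (κ : ℝ) + 4 + x₁ + |x₁| ≤ x :=
    Filter.eventually_ge_atTop _
  obtain ⟨x₀, hx₀⟩ := Filter.eventually_atTop.mp (hl1.and (hl2.and (hl3.and hl4)))
  refine ⟨R, δ, hδ0, x₀, fun x hx s => ?_⟩
  obtain ⟨h1, h2, h3, h4⟩ := hx₀ x hx
  have hx1x : x₁ ≤ x := by
    have := neg_le_abs x₁
    have := abs_nonneg x₁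
    linarith
  have hxκ : 2 * (κ : ℝ) + 4 ≤ x := by
    have := neg_le_abs x₁
    linarith
  have hx1 : (1 : ℝ) ≤ x := by linarith
  have hx0 : (0 : ℝ) < x := by linarith
  set Y : ℕ := ⌊x ^ δ⌋₊ with hY
  have hYle : (Y : ℝ) ≤ x ^ δ := Nat.floor_le (by positivity)
  have hY2 : 2 ≤ Y := Nat.le_floor (by push_cast; exact h1)
  have hYC : (Y : ℝ) ^ C ≤ x ^ (η / 8) := by
    calc (Y : ℝ) ^ C ≤ (x ^ δ) ^ C := pow_le_pow_left₀ (by positivity) hYle C
      _ = x ^ (δ * C) := by rw [← Real.rpow_natCast, ← Real.rpow_mul hx0.le]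
      _ ≤ x ^ (η / 8) := Real.rpow_le_rpow_of_exponent_le hx1 hδC
  set X : ℤ := ⌊x⌋ with hX
  set Z : ℤ := ⌊x ^ θ⌋ with hZ
  set A : ℤ := ⌊x ^ (γ + η)⌋ with hA
  set A' : ℤ := ⌊x ^ (γ + 2 * η)⌋ with hA'
  have hXx : (X : ℝ) ≤ x := Int.floor_le x
  have hXx' : x - 1 < X := Int.sub_one_lt_floor x
  have hZx : (Z : ℝ) ≤ x ^ θ := Int.floor_le _
  have hZx' : x ^ θ - 1 < Z := Int.sub_one_lt_floor _
  have hAx : (A : ℝ) ≤ x ^ (γ + η) := Int.floor_le _
  have hAx' : x ^ (γ + η) - 1 < A := Int.sub_one_lt_floor _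
  have hA'x : (A' : ℝ) ≤ x ^ (γ + 2 * η) := Int.floor_le _
  have hX0 : 0 < X := by
    have : (0 : ℝ) < X := by linarith
    exact_mod_cast this
  have hθγ : θ = (γ + 2 * η) + (1 - 2 * γ - 2 * η) := by rw [hγ]; ring
  have hg0 : e / 2 ≤ 1 - 2 * γ - 2 * η := by nlinarith
  have hxp : ∀ u : ℝ, 0 < x ^ u := fun u => Real.rpow_pos_of_pos hx0 u
  -- `8 x ^ (γ + 2 η) ≤ x ^ θ`
  have h8 : 8 * x ^ (γ + 2 * η) ≤ x ^ θ := by
    have e0 : x ^ θ = x ^ (γ + 2 * η) * x ^ (1 - 2 * γ - 2 * η) := by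
      rw [← Real.rpow_add hx0]
      congr 1
    rw [e0, mul_comm]
    refine mul_le_mul_of_nonneg_left ?_ (hxp _).le
    calc (8 : ℝ) ≤ 8 + c₃ := by linarith
      _ ≤ x ^ (e / 2) := h3
      _ ≤ _ := Real.rpow_le_rpow_of_exponent_le hx1 hg0
  have hone : 1 ≤ x ^ (γ + 2 * η) := Real.one_le_rpow hx1 (by linarith)
  have hZhalf : x ^ θ / 2 ≤ Z := by linarith
  have h64 : (64 : ℝ) * (W + B) ≤ x ^ (γ + η) := by
    refine h2.trans (Real.rpow_le_rpow_of_exponent_le hx1 (by linarith))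
  have hABr : x ^ (γ + η) / 2 ≤ ((A - B : ℤ) : ℝ) := by
    push_cast
    linarith
  have hAB : B < A := by
    have : (0 : ℝ) < ((A - B : ℤ) : ℝ) := lt_of_lt_of_le (by have := hxp (γ + η); linarith) hABr
    have : 0 < A - B := by exact_mod_cast this
    linarith
  have hZAB : x * x ^ η / 4 ≤ (Z : ℝ) * ((A - B : ℤ) : ℝ) := by
    have e0 : x * x ^ η = x ^ θ * x ^ (γ + η) := by
      rw [← Real.rpow_add hx0]
      conv_lhs => rw [← Real.rpow_one x]
      rw [← Real.rpow_mul hx0.le, one_mul, ← Real.rpow_add hx0]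
      congr 1
      rw [hγ]; ring
    have := mul_le_mul hZhalf hABr (by have := hxp (γ + η); positivity)
      (by have := hxp θ; linarith)
    rw [e0]
    linarith
  -- the target set
  set T : Set ℕ := {n : ℕ | x < n ∧ (n : ℝ) ≤ x + x ^ θ ∧ (m : ℤ) ∣ n - r ∧
      (∀ i, 0 < a i * n + b i ∧ ArithmeticFunction.cardFactors (a i * n + b i).natAbs ≤ R ∧
        ∀ p : ℕ, p.Prime → (p : ℤ) ∣ a i * n + b i → x ^ δ < p) ∧
      ((∑ i ∈ S, ArithmeticFunction.cardFactors (a i * n + b i).natAbs : ℕ) : ZMod 2) = s} with hT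
  have hTfin : T.Finite := by
    apply (Set.finite_Iic ⌊x + x ^ θ⌋₊).subset
    intro n hn
    exact Nat.le_floor hn.2.1
  have hxθx : x ^ θ ≤ x := by
    calc x ^ θ ≤ x ^ (1 : ℝ) := Real.rpow_le_rpow_of_exponent_le hx1 hθ1
      _ = x := Real.rpow_one x
  have hzz : ∀ y c : ZMod 2, y ≠ c + 1 → y = c := by decide
  have hsub : Exc a b S Fpar (s + 1) W n₀ Y X Z ⊆ (fun n : ℕ => (n : ℤ)) '' T := by
    intro n hn
    obtain ⟨hn1, hn2, hncl, hn3, hn4⟩ := hn
    have hn0 : 0 ≤ n := by linarith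
    have hnn' : ((n.toNat : ℕ) : ℤ) = n := Int.toNat_of_nonneg hn0
    have hnr : ((n.toNat : ℕ) : ℝ) = (n : ℝ) := by exact_mod_cast congrArg (Int.cast : ℤ → ℝ) hnn'
    have hnx : x < n := by
      have h6 : X + 1 ≤ n := hn1
      have h7 : ((X : ℝ) + 1) ≤ n := by exact_mod_cast h6
      linarith
    have hnx2 : (n : ℝ) ≤ x + x ^ θ := by
      have h7 : (n : ℝ) ≤ X + Z := by exact_mod_cast hn2
      linarith
    refine ⟨n.toNat, ⟨?_, ?_, ?_, ?_, ?_⟩, hnn'⟩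
    · rw [hnr]; exact hnx
    · rw [hnr]; exact hnx2
    · rw [hnn']
      have h6 : (m : ℤ) ∣ W := Int.natCast_dvd_natCast.2 hmW
      have h7 : n - r = (n - n₀) + (n₀ - r) := by ring
      rw [h7]
      exact dvd_add (h6.trans hncl) hn₀r
    · intro i
      rw [hnn']
      have hai : (1 : ℝ) ≤ a i := by exact_mod_cast ha i
      have haκ : (a i : ℝ) + |(b i : ℝ)| ≤ κ := by
        have h6 : a i + |b i| ≤ κ := by
          have := hκi i
          have := hBi i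
          linarith
        exact_mod_cast h6
      have hab1 : -(b i : ℝ) ≤ |(b i : ℝ)| := neg_le_abs _
      have hab2 : (b i : ℝ) ≤ |(b i : ℝ)| := le_abs_self _
      have hbn : 0 ≤ |(b i : ℝ)| := abs_nonneg _
      have hpos : 0 < a i * n + b i := by
        have : (0 : ℝ) < (a i : ℝ) * n + b i := by nlinarith
        exact_mod_cast this
      have hrough : ∀ p : ℕ, p.Prime → (p : ℤ) ∣ a i * n + b i → x ^ δ < p := by
        intro p hp hpd
        have h6 : ¬ p ≤ Y := fun h => hn3 i p hp h hpd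
        push Not at h6
        calc x ^ δ < (⌊x ^ δ⌋₊ : ℝ) + 1 := Nat.lt_floor_add_one _
          _ ≤ p := by exact_mod_cast h6
      refine ⟨hpos, ?_, hrough⟩
      refine card_le _ (by omega) x δ (by linarith) hδ0 R hR ?_ ?_
      · have h6 : (((a i * n + b i).natAbs : ℕ) : ℝ) = (a i : ℝ) * n + b i := by
          have h7 : (((a i * n + b i).natAbs : ℕ) : ℤ) = a i * n + b i :=
            Int.natAbs_of_nonneg hpos.le
          have h8 : ((((a i * n + b i).natAbs : ℕ) : ℤ) : ℝ) = ((a i * n + b i : ℤ) : ℝ) := by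
            rw [h7]
          push_cast at h8
          simpa using h8
        rw [h6]
        have h9 : (n : ℝ) ≤ 2 * x := by linarith
        have h10 : (a i : ℝ) * n ≤ a i * (2 * x) := mul_le_mul_of_nonneg_left h9 (by linarith)
        have h11 : (b i : ℝ) ≤ |(b i : ℝ)| * x := by nlinarith
        have h12 : (2 * ((a i : ℝ) + |(b i : ℝ)|)) * x ≤ x * x :=
          mul_le_mul_of_nonneg_right (by linarith) hx0.le
        nlinarith
      · intro p hp hpd
        exact hrough p hp (Int.natCast_dvd.2 hpd)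
    · rw [hnn']
      have h6 := hzz _ _ hn4
      rw [← h6]
      unfold RR Fpar
      push_cast
      rfl
  set E : ℕ := T.ncard with hE
  have hcard : (Exc a b S Fpar (s + 1) W n₀ Y X Z).ncard ≤ E :=
    (Set.ncard_le_ncard hsub (hTfin.image _)).trans (Set.ncard_image_le hTfin)
  have hEnn : (0 : ℝ) ≤ 2 * (S.card : ℝ) * (E : ℝ) + 1 :=
    add_nonneg (mul_nonneg (mul_nonneg (by norm_num) (Nat.cast_nonneg _)) (Nat.cast_nonneg _))
      zero_le_one
  by_contra hcon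
  push Not at hcon
  have hcon' : (E : ℝ) ≤ x ^ (ρ - e) :=
    hcon.le.trans (Real.rpow_le_rpow_of_exponent_le hx1 (by rw [hρ]; linarith))
  have hone2 : 1 ≤ x ^ (ρ - e) := Real.one_le_rpow hx1 (by linarith)
  have hE1 : 2 * σ * E + 1 ≤ (2 * σ + 1) * x ^ (ρ - e) := by
    have : 2 * σ * E ≤ 2 * σ * x ^ (ρ - e) := mul_le_mul_of_nonneg_left hcon' (by linarith)
    linarith
  -- the three conditions
  have c1 : 4 * X * (2 * (W * (Y ^ C : ℕ)) + 2 * B) ≤ Z * (A - B) := by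
    have g1 : (4 : ℝ) * X * (2 * (W * (Y : ℝ) ^ C) + 2 * B) ≤ (Z : ℝ) * ((A - B : ℤ) : ℝ) := by
      refine le_trans ?_ hZAB
      have k0 : (1 : ℝ) ≤ x ^ (η / 8) := Real.one_le_rpow hx1 (by linarith)
      have k1 : 2 * (W * (Y : ℝ) ^ C) + 2 * (B : ℝ) ≤ 2 * ((W : ℝ) + B) * x ^ (η / 8) := by
        have k2 : (W : ℝ) * (Y : ℝ) ^ C ≤ W * x ^ (η / 8) :=
          mul_le_mul_of_nonneg_left hYC (by positivity)
        have k3 : (B : ℝ) ≤ B * x ^ (η / 8) := by nlinarith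
        nlinarith
      have k4 : x ^ η = x ^ (7 * η / 8) * x ^ (η / 8) := by
        rw [← Real.rpow_add hx0]; congr 1; ring
      have k5 : 2 * ((W : ℝ) + B) * x ^ (η / 8) ≤ x ^ η / 32 := by
        rw [k4]
        have := mul_le_mul_of_nonneg_right h2 (hxp (η / 8)).le
        linarith
      have k6 : 0 ≤ 2 * (W * (Y : ℝ) ^ C) + 2 * (B : ℝ) := by positivity
      have k7 : (4 : ℝ) * X * (2 * (W * (Y : ℝ) ^ C) + 2 * B) ≤ 4 * x * (x ^ η / 32) :=
        mul_le_mul (by linarith) (k1.trans k5) k6 (by linarith)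
      have k8 : 0 ≤ x * x ^ η := by positivity
      linarith
    have g2 : ((4 * X * (2 * (W * (Y ^ C : ℕ)) + 2 * B) : ℤ) : ℝ) ≤ ((Z * (A - B) : ℤ) : ℝ) := by
      push_cast
      push_cast at g1
      linarith
    exact_mod_cast g2
  have c2 : 4 * A' ≤ Z := by
    have : (4 : ℝ) * A' ≤ Z := by linarith
    exact_mod_cast this
  have c3 : 2 * (W * (κ * A') ^ (2 * S.card)) * (Y ^ C * (2 * S.card * E + 1) : ℕ) ≤
      Z * (A - B) := by
    have g1 : (2 : ℝ) * (W * ((κ : ℝ) * A') ^ (2 * S.card)) *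
        ((Y : ℝ) ^ C * (2 * S.card * E + 1)) ≤ (Z : ℝ) * ((A - B : ℤ) : ℝ) := by
      refine le_trans ?_ hZAB
      have hA'0 : (0 : ℝ) ≤ A' := by
        have : 0 ≤ A' := Int.floor_nonneg.2 (hxp _).le
        exact_mod_cast this
      have k1 : ((κ : ℝ) * A') ^ (2 * S.card) ≤
          (κ : ℝ) ^ (2 * S.card) * x ^ ((γ + 2 * η) * (2 * σ)) := by
        rw [mul_pow]
        refine mul_le_mul_of_nonneg_left ?_ (by positivity)
        calc (A' : ℝ) ^ (2 * S.card) ≤ (x ^ (γ + 2 * η)) ^ (2 * S.card) :=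
              pow_le_pow_left₀ hA'0 hA'x _
          _ = x ^ ((γ + 2 * η) * (2 * σ)) := by
            rw [← Real.rpow_natCast, ← Real.rpow_mul hx0.le, hσ]
            congr 1
            push_cast
            ring
      have k2 : (Y : ℝ) ^ C * (2 * S.card * E + 1) ≤
          x ^ (η / 8) * ((2 * σ + 1) * x ^ (ρ - e)) :=
        mul_le_mul hYC hE1 hEnn (hxp _).le
      have k3 : (2 : ℝ) * (W * ((κ : ℝ) * A') ^ (2 * S.card)) ≤
          2 * (W * ((κ : ℝ) ^ (2 * S.card) * x ^ ((γ + 2 * η) * (2 * σ)))) := by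
        have := mul_le_mul_of_nonneg_left k1 (by positivity : (0 : ℝ) ≤ W)
        linarith
      calc (2 : ℝ) * (W * ((κ : ℝ) * A') ^ (2 * S.card)) * ((Y : ℝ) ^ C * (2 * S.card * E + 1))
          ≤ (2 * (W * ((κ : ℝ) ^ (2 * S.card) * x ^ ((γ + 2 * η) * (2 * σ))))) *
            (x ^ (η / 8) * ((2 * σ + 1) * x ^ (ρ - e))) :=
            mul_le_mul k3 k2 (mul_nonneg (pow_nonneg (Nat.cast_nonneg _) _) hEnn)
              (by have := hxp ((γ + 2 * η) * (2 * σ)); positivity)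
        _ = c₃ / 4 * (x ^ ((γ + 2 * η) * (2 * σ)) * x ^ (η / 8) * x ^ (ρ - e)) := by
            rw [hc₃]; ring
        _ = c₃ / 4 * x ^ ((γ + 2 * η) * (2 * σ) + η / 8 + (ρ - e)) := by
            rw [← Real.rpow_add hx0, ← Real.rpow_add hx0]
        _ ≤ x ^ (e / 2) / 4 * x ^ ((γ + 2 * η) * (2 * σ) + η / 8 + (ρ - e)) := by
            refine mul_le_mul_of_nonneg_right ?_ (hxp _).le
            linarith
        _ = x ^ (e / 2 + ((γ + 2 * η) * (2 * σ) + η / 8 + (ρ - e))) / 4 := by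
            rw [Real.rpow_add hx0 (e / 2)]; ring
        _ ≤ x ^ (1 + η) / 4 := by
            refine div_le_div_of_nonneg_right ?_ (by norm_num)
            apply Real.rpow_le_rpow_of_exponent_le hx1
            have : e / 2 + ((γ + 2 * η) * (2 * σ) + η / 8 + (ρ - e)) =
                1 + η / 8 + (4 * (σ * η) - e / 2) := by rw [hρ]; ring
            rw [this]
            nlinarith
        _ = x * x ^ η / 4 := by rw [Real.rpow_add hx0, Real.rpow_one]
    have g2 : ((2 * (W * (κ * A') ^ (2 * S.card)) * (Y ^ C * (2 * S.card * E + 1) : ℕ) : ℤ) : ℝ) ≤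
        ((Z * (A - B) : ℤ) : ℝ) := by
      push_cast
      push_cast at g1
      linarith
    exact_mod_cast g2
  have hch := chain a b S hS W n₀ K C hSV (by rw [hK]) hW hWp hWa ha B hBi hn₀ Y hY2 Fpar add2_Fpar
    (s + 1) X Z E hcard hX0 hB0 A A' κ hAB hκi c1 c2 c3
  -- two tuples with different signs
  have hget : ∀ u : ZMod 2, ∃ U : ℤ, A ≤ U ∧ U ≤ A' ∧ (W : ℤ) ∣ U - n₀ ∧
      (∀ i ∈ S, Rough Y (a i * U + b i)) ∧ RR a b S Fpar U = u := by
    intro u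
    obtain ⟨U, k1, k2, k3, k4, k5⟩ := hboth x hx1x u
    refine ⟨U, ?_, Int.le_floor.2 k2, k3, ?_, k5⟩
    · have : (A : ℝ) ≤ U := hAx.trans k1
      exact_mod_cast this
    · intro i _ p hp hpY hd
      have k6 := k4 i p hp hd
      have k7 : x ^ δ ≤ x ^ δ₁ := Real.rpow_le_rpow_of_exponent_le hx1 hδ1
      have k8 : (p : ℝ) ≤ Y := by exact_mod_cast hpY
      linarith
  obtain ⟨U, u1, u2, u3, u4, u5⟩ := hget 0
  obtain ⟨V, v1, v2, v3, v4, v5⟩ := hget 1
  rcases le_total U V with huv | huv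
  · have := hch (V - U).toNat U V u1 huv v2 (by rw [Int.toNat_of_nonneg (by linarith)]) u3 v3 u4 v4
    rw [u5, v5] at this
    exact absurd this (by decide)
  · have := hch (U - V).toNat V U v1 huv u2 (by rw [Int.toNat_of_nonneg (by linarith)]) v3 u3 v4 u4
    rw [u5, v5] at this
    exact absurd this (by decide)

end Pool.Agent.W5h75.SQ
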